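import Mathlib
import Pool.Agent.Lib.MP_4ca46c_ag.T2.EvenA
import Pool.Agent.Lib.MP_4ca46c_ag.Two.Trp

/-!
# The even Künneth components below the middle degree

For a variety of odd dimension the projectors onto the cohomology of even degree `i` are algebraic
for all even `i` if they are for `2 ≤ i < dim`.
-/

set_option autoImplicit false

open CategoryTheory MonoidalCategory CartesianMonoidalCategory TensorProduct

namespace Pool.Agent.Lib.MP_4ca46c_ag.Ev

open Pool.Agent.Lib.MP_4ca46c_ag.Geo Pool.Agent.Lib.MP_4ca46c_ag.Geo.WeilCohomology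
open Pool.Agent.Lib.MP_4ca46c_ag.Two Pool.Agent.Lib.MP_4ca46c_ag.T2

variable {K : Type} [Field K] [CharZero K] {𝒱 : Type 1} [Category.{0} 𝒱]
  [CartesianMonoidalCategory 𝒱] (W : WeilCohomology K 𝒱)

theorem dim_unit : W.dim (𝟙_ 𝒱) = 0 := by
  by_contra h
  have h1 : W.tr (𝟙_ 𝒱) 1 = 0 := W.tr_gr (i := 0) (SetLike.one_mem_graded (W.gr (𝟙_ 𝒱)))
    (by omega)
  rw [W.tr_unit] at h1
  exact one_ne_zero h1

/-- The projector onto `H^0`. -/
theorem pi_zero_mem (X : 𝒱) : W.pi X 0 ∈ W.Cor X X 0 := by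
  obtain ⟨s⟩ := W.point X
  have h1 : (W.pull (toUnit X ≫ s)).toLinearMap = W.pi X 0 := by
    refine W.hom_ext fun l x hx => ?_
    change W.pull (toUnit X ≫ s) x = W.pi X 0 x
    by_cases hl : l = 0
    · subst hl
      obtain ⟨a, rfl⟩ := W.connected hx
      rw [W.pi_same hx, AlgHom.commutes]
    · rw [W.pi_ne hx hl, W.pull_comp, W.gr_top (W.pull_gr s hx) (by rw [dim_unit]; omega),
        map_zero]
  rw [← h1]
  exact W.cor_pull _

/-- The projector onto `H^i` from the one onto the dual group. -/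
theorem pi_dual_mem {X : 𝒱} {i j : ℕ} (hij : i + j = 2 * W.dim X) (h : W.pi X j ∈ W.Cor X X 0) :
    W.pi X i ∈ W.Cor X X 0 := by
  obtain ⟨f, hf, hft⟩ := tTrp K 𝒱 W X X 0 0 rfl _ h
  have h1 : f = W.pi X i := by
    refine W.hom_ext fun l x hx => ?_
    rw [← sub_eq_zero]
    refine W.duality _ fun y => ?_
    rw [sub_mul, map_sub, hft, sub_eq_zero]
    have h2 : (W.tr X ∘ₗ LinearMap.mulLeft K x ∘ₗ W.pi X j) =
        W.tr X ∘ₗ LinearMap.mulLeft K (W.pi X i x) := by
      refine W.hom_ext fun m y hy => ?_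
      change W.tr X (x * W.pi X j y) = W.tr X (W.pi X i x * y)
      by_cases hl : l = i
      · subst hl
        rw [W.pi_same hx]
        by_cases hm : m = j
        · subst hm
          rw [W.pi_same hy]
        · rw [W.pi_ne hy hm, mul_zero, map_zero,
            W.tr_gr (SetLike.mul_mem_graded hx hy) (by omega)]
      · rw [W.pi_ne hx hl, zero_mul, map_zero]
        by_cases hm : m = j
        · subst hm
          rw [W.pi_same hy, W.tr_gr (SetLike.mul_mem_graded hx hy) (by omega)]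
        · rw [W.pi_ne hy hm, mul_zero, map_zero]
    exact LinearMap.congr_fun h2 y
  rw [← h1]
  exact hf

/-- The even projectors, from those in the degrees `2 ≤ i < dim`, in odd dimension. -/
theorem evenK_of_small {X : 𝒱} (hX : Odd (W.dim X))
    (H : ∀ i, Even i → 2 ≤ i → i < W.dim X → W.pi X i ∈ W.Cor X X 0) : EvenK W X := by
  have h1 : ∀ i, Even i → i < W.dim X → W.pi X i ∈ W.Cor X X 0 := by
    intro i hi hi'
    rcases Nat.eq_zero_or_pos i with rfl | h0
    · exact pi_zero_mem W X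
    · obtain ⟨r, hr⟩ := hi
      exact H i ⟨r, hr⟩ (by omega) hi'
  intro i hi
  obtain ⟨r, hr⟩ := hi
  obtain ⟨d, hd⟩ := hX
  rcases Nat.lt_or_ge (2 * W.dim X) i with h | h
  · have h2 : W.pi X i = 0 := LinearMap.ext fun x => W.pi_top h x
    rw [h2]
    exact AddSubgroup.zero_mem _
  · rcases Nat.lt_or_ge i (W.dim X) with h2 | h2
    · exact h1 i ⟨r, hr⟩ h2
    · exact pi_dual_mem W (j := 2 * W.dim X - i) (by omega)
        (h1 _ ⟨W.dim X - r, by omega⟩ (by omega))

end Pool.Agent.Lib.MP_4ca46c_ag.Ev
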