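import Mathlib
import Pool.Agent.Lib.MP_4ca46c_ag.Std.Statement

/-!
# The Künneth conjecture in even degrees, extensions of transcendence degree two
-/

set_option autoImplicit false

namespace Pool.Agent.Lib.MP_4ca46c_ag.Ev

open CategoryTheory AlgebraicGeometry
open Pool.Agent.Lib.MP_4ca46c_ag.Sign Pool.Agent.Lib.MP_4ca46c_ag.Std

variable {k₀ : Type} [Field k₀] {K : Type} [Field K]

/-- The morphism of schemes `f : Y ⟶ X` is a closed immersion, and the complement `U` of its image
is affine. -/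
def AffineCompl {X Y : Scheme.{0}} (f : Y ⟶ X) : Prop :=
  IsClosedImmersion f ∧ ∃ U : X.Opens, IsAffineOpen U ∧ ∀ p, p ∈ U ↔ ∀ q, f q ≠ p

/-- The weak Lefschetz theorem: if `ρ : Y ⟶ X` is the inclusion of a smooth divisor with affine
complement in a smooth proper variety, then `H^i(X) ⟶ H^i(Y)` is surjective for `i < dim Y`. -/
def WeakLefschetz (D : CohData k₀ K) : Prop := ∀ (k : Type) [Field k] [Algebra k₀ k]
  [IsAlgClosed k] (X Y : Sch k₀) (x : X ⟶ pt k₀ k) (y : Y ⟶ pt k₀ k) (ρ : Y ⟶ X) (m : ℕ),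
  IsVar x (m + 1) → IsVar y m → ρ ≫ x = y → AffineCompl ρ.left →
  ∀ i < m, ∀ u, D.Deg i u → ∃ v, D.Deg i v ∧ D.pbH ρ v = u

/-- The Künneth conjecture in even degrees: for every even `i` there is a cycle `a` of codimension
`n` on `V × V` which acts on `H(V)` as the projector onto `H^i(V)`, that is,
`p₁_* (cl a ∪ p₂^* v)` is `v` for `v ∈ H^i(V)` and `0` for `v ∈ H^l(V)`, `l ≠ i`. The equation is
expressed by Poincaré duality. -/
def EvenKunneth (D : CohData k₀ K) (V : PrVar k₀) : Prop := ∀ i, Even i → ∃ a, D.Codim V.n a ∧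
  ∀ l v w, D.Deg l v → V.pair D a v w = if l = i then D.trace (D.cup v w) else 0

/-- The base field of `U` is an (algebraically closed) extension of transcendence degree `2` of
the base field of `V`. -/
def TwoParams (V U : PrVar k₀) : Prop :=
  ∃ φ : V.k →ₐ[k₀] U.k, @Algebra.trdeg V.k U.k _ _ φ.toRingHom.toAlgebra = 2

end Pool.Agent.Lib.MP_4ca46c_ag.Ev
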