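import Pool.Agent.Lib.MP_4ca46c_ag.Cn.Fin
import Pool.Agent.Lib.MP_4ca46c_ag.Ev.St
import Pool.Agent.Lib.MP_4ca46c_ag.T2.Final
import Pool.Agent.Lib.MP_4ca46c_ag.Two.Psi

/-!
# Two parameters: the final form
-/

set_option autoImplicit false

namespace Pool.Agent.Lib.MP_4ca46c_ag.Ev

open CategoryTheory Limits AlgebraicGeometry MonoidalCategory CartesianMonoidalCategory
open Pool.Agent.Lib.MP_4ca46c_ag.Sign Pool.Agent.Lib.MP_4ca46c_ag.Hyp
open Pool.Agent.Lib.MP_4ca46c_ag.Std Pool.Agent.Lib.MP_4ca46c_ag.Vtc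
open Pool.Agent.Lib.MP_4ca46c_ag.Two.KunUAux (M)

variable {k₀ K : Type} [Field k₀] [Field K] {D : CohData k₀ K} (h : D.IsTheory)
  (h' : IsStandard D)

include h in
theorem weakT (hW : WeakLefschetz D) : T2.WeakT (D.weil h) := by
  intro k _ _ _ X Y x y ρ m hx hy hρ hc i hi u hu
  obtain ⟨hcl, U, hU, hr⟩ := hc
  obtain ⟨v, hv, hv'⟩ := hW k X Y x y ρ m hx hy hρ ⟨hcl, U 0, hU 0, fun p => by
    have h1 := Set.ext_iff.1 hr p
    rw [Set.mem_compl_iff, Set.mem_iUnion] at h1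
    constructor
    · intro hp q hq
      exact h1.2 ⟨0, hp⟩ ⟨q, hq⟩
    · intro hp
      obtain ⟨j, hj⟩ := h1.1 fun ⟨q, hq⟩ => hp q hq
      rwa [Subsingleton.elim j 0] at hj⟩ i hi u hu
  exact ⟨v, hv, hv'⟩

include h in
theorem even_iff [CharZero K] (V : PrVar k₀) : EvenKunneth D V ↔ T2.EvenKunneth D V := by
  constructor
  · intro H i hi
    obtain ⟨a, ha, hp⟩ := H i hi
    obtain ⟨π, hπ⟩ := exists_pr h V i
    refine ⟨π, hπ, a, Or.inl ⟨by omega, ?_⟩, fun v w => ?_⟩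
    · simpa using ha
    · let f : D.H V.X →ₗ[K] K := D.tr V.X ∘ₗ LinearMap.mulRight K w ∘ₗ π
      let g : D.H V.X →ₗ[K] K := D.tr V.sq ∘ₗ LinearMap.mulRight K (D.pullH V.p₁ w) ∘ₗ
        LinearMap.mulLeft K (D.cls a) ∘ₗ (D.pullH V.p₂).toLinearMap
      have h1 : ∀ (l : ℕ) (v : D.H V.X), D.Deg l v → f v = g v := by
        intro l v hv
        have h2 : g v = if l = i then D.trace (D.cup v w) else 0 := hp l v w hv
        rw [h2]
        change D.tr V.X (π v * w) = _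
        by_cases hl : l = i
        · subst hl
          rw [if_pos rfl, hπ.1 v hv]
          rfl
        · rw [if_neg hl, hπ.2 l hl v hv, zero_mul, map_zero]
      have h3 : f = g := (weil (D.weil h) V.k).hom_ext (X := vr V) h1
      exact LinearMap.congr_fun h3 v
  · intro H i hi
    obtain ⟨π, hπ, a, ha, hp⟩ := H i hi
    refine ⟨a, ?_, fun l v w hv => ?_⟩
    · rcases ha with ⟨-, ha⟩ | ⟨h0, -⟩
      · simpa using ha
      · omega
    · rw [← hp v w]
      by_cases hl : l = i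
      · subst hl
        rw [if_pos rfl, hπ.1 v hv]
      · rw [if_neg hl, hπ.2 l hl v hv, CohData.trace, CohData.cup, zero_mul, map_zero]

theorem twoParams (V : PrVar k₀) (U : ProjVar k₀ (M V.k)) : TwoParams V (ofProj U) := by
  have e : (IsScalarTower.toAlgHom k₀ V.k (M V.k)).toRingHom.toAlgebra =
      (inferInstance : Algebra V.k (M V.k)) := Algebra.algebra_ext _ _ fun _ => rfl
  have e2 : @Algebra.trdeg V.k (M V.k) _ _
      (IsScalarTower.toAlgHom k₀ V.k (M V.k)).toRingHom.toAlgebra = 2 := by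
    rw [e]
    exact Two.KunUAux.trdeg_M V.k
  exact ⟨IsScalarTower.toAlgHom k₀ V.k (M V.k), e2⟩

include h h' in
/-- **The local form.** -/
theorem loc (hW : WeakLefschetz D) (V : PrVar k₀) : ∃ U : Fin (V.n - 1) → PrVar k₀,
    (∀ j, TwoParams V (U j) ∧ (U j).n = 2 * j + 3) ∧
      ((∀ j, EvenKunneth D (U j)) → V.LefschetzConj D) := by
  have := char_zero h h'
  obtain ⟨U, h1, h2⟩ := T2.loce_proj h h' (T2.fin_pencil k₀ K Cn.tHypConn)
    (T2.fin_fibE k₀ K Two.tPsi) (weakT h hW) V.k V.n V.toProj rfl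
  refine ⟨fun j => ofProj (U j), fun j => ⟨twoParams V (U j), h1 j (by omega)⟩, fun H => ?_⟩
  rw [lef_iff h h']
  exact h2 fun i hi => (T2.evenK_iff h h' (ofProj (U i))).1
    ((even_iff h _).1 (H ⟨i, by omega⟩))

theorem TwoParams.trdeg {V U : PrVar k₀} (H : TwoParams V U) :
    Algebra.trdeg k₀ U.k = Algebra.trdeg k₀ V.k + 2 := by
  obtain ⟨φ, hφ⟩ := H
  let _ : Algebra V.k U.k := φ.toRingHom.toAlgebra
  have t : IsScalarTower k₀ V.k U.k := IsScalarTower.of_algebraMap_eq fun r => (φ.commutes r).symm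
  have e := trdeg_add_eq k₀ V.k (A := U.k)
  rw [← hφ, e]

include h h' in
/-- **Finite transcendence degree.** -/
theorem fin (hW : WeakLefschetz D) (r m : ℕ) (hr : r + 2 ≤ m)
    (H : ∀ U : PrVar k₀, Algebra.trdeg k₀ U.k = m → EvenKunneth D U)
    (V : PrVar k₀) (hV : Algebra.trdeg k₀ V.k = r) : V.LefschetzConj D := by
  have := char_zero h h'
  obtain ⟨V', h1, -, -, h2⟩ := Two.exists_pbc h h' V (m - 2 - r)
  refine h2 ?_
  obtain ⟨U, hU, hUL⟩ := loc h h' hW V'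
  refine hUL fun j => H _ ?_
  rw [(hU j).1.trdeg, h1, hV]
  norm_cast
  omega

include h h' in
/-- **The equivalence.** -/
theorem equiv [IsAlgClosed k₀] (hW : WeakLefschetz D) (hF : HasFamilies D) (hM : HasModels k₀)
    (m : ℕ) (hm : 2 ≤ m) :
    [∀ V : PrVar k₀, V.KunnethConj D, ∀ V : PrVar k₀, V.LefschetzConj D,
      ∀ V : PrVar k₀, V.IsOver k₀ → V.LefschetzConj D,
      ∀ V : PrVar k₀, Algebra.trdeg k₀ V.k = m → EvenKunneth D V].TFAE := by
  have := char_zero h h'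
  have h1 := final_tfae h h' hF hM
  tfae_have 1 ↔ 2 := h1.out 0 1
  tfae_have 2 ↔ 3 := h1.out 1 2
  tfae_have 1 → 4 := fun H V _ => (even_iff h V).2 (T2.even_of_kunneth h h' V (H V))
  tfae_have 4 → 3 := fun H V hV => fin h h' hW 0 m (by omega) H V (by
    rw [Nat.cast_zero]
    exact Vtc.IsOver.trdeg hV)
  tfae_finish

end Pool.Agent.Lib.MP_4ca46c_ag.Ev
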